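import Pool.Agent.W209.CF.Basic

/-!
Changes of a colouring inside an isolated family `K` do not affect components and entries outside.
-/

namespace Pool.Agent.W381.CF3

open Finset Pool.Agent.W209.CF

section
variable {V E : Type} [Fintype V] [DecidableEq V] [Fintype E] [DecidableEq E]
variable {inc : E → Finset V}

theorem not_mem_of_not_VK {K : Finset E} {v : V} (hv : v ∉ VK inc K) {e : E} (he : v ∈ inc e) :
    e ∉ K := fun h => hv (mem_VK.2 ⟨e, h, he⟩)

theorem comp_sub {s s' : E → Fin 3} {K : Finset E} (h1 : ∀ e, e ∉ K → s' e = s e)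
    (h2 : ∀ e, s e ≠ 0 → e ∉ K → Disjoint (inc e) (VK inc K)) {h : E}
    (hh : Disjoint (inc h) (VK inc K)) : comp inc s h ⊆ comp inc s' h := by
  intro e he
  rw [mem_comp] at he ⊢
  obtain ⟨he0, e', he', ⟨v, hv, hv'⟩, hr⟩ := he
  have hvK : v ∉ VK inc K := Finset.disjoint_left.1 hh hv
  have he'K : e' ∉ K := not_mem_of_not_VK hvK hv'
  have key : e ∉ K ∧ s' e ≠ 0 ∧ Relation.ReflTransGen (Adj inc s') e' e := by
    clear he0
    induction hr with
    | refl => exact ⟨he'K, by rw [h1 e' he'K]; exact he', Relation.ReflTransGen.refl⟩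
    | @tail b c _ hadj ih =>
      obtain ⟨ihK, ih0, ihr⟩ := ih
      obtain ⟨hb, hc, w, hw, hw'⟩ := hadj
      have hwK : w ∉ VK inc K := Finset.disjoint_left.1 (h2 b hb ihK) hw
      have hcK : c ∉ K := not_mem_of_not_VK hwK hw'
      have hc' : s' c ≠ 0 := by rw [h1 c hcK]; exact hc
      exact ⟨hcK, hc', ihr.tail ⟨ih0, hc', w, hw, hw'⟩⟩
  exact ⟨key.2.1, e', by rw [h1 e' he'K]; exact he', ⟨v, hv, hv'⟩, key.2.2⟩

end

theorem loc : S_local := by
  intro V E _ _ _ _ inc _ s s' K h1 h2 h hh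
  have h1' : ∀ e, e ∉ K → s e = s' e := fun e he => (h1 e he).symm
  have h2' : ∀ e, s' e ≠ 0 → e ∉ K → Disjoint (inc e) (VK inc K) := by
    intro e he heK
    rw [h1 e heK] at he
    exact h2 e he heK
  refine ⟨Finset.Subset.antisymm (comp_sub h1' h2' hh) (comp_sub h1 h2 hh), ?_⟩
  have hdg : ∀ v ∈ inc h, dg inc s' v = dg inc s v := by
    intro v hv
    have hvK : v ∉ VK inc K := Finset.disjoint_left.1 hh hv
    exact dg_congr fun e he => h1 e (not_mem_of_not_VK hvK he)
  intro u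
  unfold Entry
  constructor
  · rintro ⟨hu, h0, h3⟩
    exact ⟨hu, by rw [← hdg u hu]; exact h0, fun v hv hvu => by rw [← hdg v hv]; exact h3 v hv hvu⟩
  · rintro ⟨hu, h0, h3⟩
    exact ⟨hu, by rw [hdg u hu]; exact h0, fun v hv hvu => by rw [hdg v hv]; exact h3 v hv hvu⟩

end Pool.Agent.W381.CF3
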